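import Mathlib
import Pool.Agent.Q44.LD.StmC

/-!
# Project LD of helper44, job FLD: the curve over the field generated by the square roots of the `d i`
-/

set_option autoImplicit false

namespace Pool.Agent.Q154.LD

open Q44.LD Q44.JQ.X
open Pool.Agent.Y723.PT (tw)
open Pool.Agent.TH841.NF (EF Gen one_field tor2)
open Pool.Agent.TH841.SH (Bd)
open Pool.Agent.W307.RT (Sh)
open Pool.Agent.TH841.NF.D (HasDiv rk crk)

theorem cv_tw (a : Fin 3 → ℤ) (D : ℤ) : cv (tw D a) = Sh (D ^ 2 * cA a) (D ^ 3 * cB a) := by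
  have h1 : cA (tw D a) = D ^ 2 * cA a := by
    show D * a 0 * (D * a 1) + D * a 0 * (D * a 2) + D * a 1 * (D * a 2) =
      D ^ 2 * (a 0 * a 1 + a 0 * a 2 + a 1 * a 2)
    ring
  have h2 : cB (tw D a) = D ^ 3 * cB a := by
    show -(D * a 0 * (D * a 1) * (D * a 2)) = D ^ 3 * -(a 0 * a 1 * a 2)
    ring
  show Sh (cA (tw D a)) (cB (tw D a)) = _
  rw [h1, h2]

theorem hasDiv_zero {F : Type} [Field F] [NumberField F] (W : WeierstrassCurve F) :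
    HasDiv W 0 := by
  refine ⟨0, ?_⟩
  intro x y _
  exact Subsingleton.elim x y

theorem bdd_of {F : Type} [Field F] [NumberField F] {W : WeierstrassCurve F} {X : ℝ}
    (h : ∀ q, HasDiv W q → (2 : ℝ) ^ (rk W + q) ≤ X) : BddAbove {q | HasDiv W q} := by
  refine ⟨⌈X⌉₊, fun q hq => ?_⟩
  have h1 : (q : ℝ) ≤ X := by
    have h2 : (q : ℝ) ≤ 2 ^ q := by exact_mod_cast (Nat.lt_two_pow_self (n := q)).le
    have h3 : (2 : ℝ) ^ q ≤ 2 ^ (rk W + q) := pow_le_pow_right₀ (by norm_num) (by omega)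
    exact h2.trans (h3.trans (h q hq))
  exact_mod_cast h1.trans (Nat.le_ceil X)

theorem crk_mem {F : Type} [Field F] [NumberField F] {W : WeierstrassCurve F}
    (h : BddAbove {q | HasDiv W q}) : HasDiv W (crk W) :=
  Nat.sSup_mem ⟨0, hasDiv_zero W⟩ h

theorem disc_tw {A B d : ℤ} (hd : d ≠ 0) (hD : 4 * A ^ 3 + 27 * B ^ 2 ≠ 0) :
    4 * (d ^ 2 * A) ^ 3 + 27 * (d ^ 3 * B) ^ 2 ≠ 0 := by
  have e : 4 * (d ^ 2 * A) ^ 3 + 27 * (d ^ 3 * B) ^ 2 = d ^ 6 * (4 * A ^ 3 + 27 * B ^ 2) := by ring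
  rw [e]
  exact mul_ne_zero (pow_ne_zero _ hd) hD

theorem kl_zero {G : Type} [AddCommGroup G] (h : ∀ x : G, x + x = 0 → x = 0) :
    Pool.Agent.Y723.QT.Kl G 0 := by
  intro k
  induction k with
  | zero => intro x hx; exact hx
  | succ k ih =>
    intro x hx
    apply ih
    apply h
    rw [← two_nsmul, ← mul_nsmul', ← pow_succ']
    exact hx

theorem bd_of {a : Fin 3 → ℤ} (hF : Fct a) {D : ℤ} (hD : D ≠ 0) :
    Bd (Sh (D ^ 2 * cA a) (D ^ 3 * cB a)) ((2 : ℝ) ^ wr a D) := by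
  obtain ⟨-, h2, h3⟩ := hF D hD
  rw [cv_tw] at h2 h3
  refine ⟨Finite.of_equiv _ (tor2 _), ?_⟩
  rw [← Nat.card_congr (tor2 (Sh (D ^ 2 * cA a) (D ^ 3 * cB a)))]
  have h4 : ((2 ^ Module.finrank ℤ (Sh (D ^ 2 * cA a) (D ^ 3 * cB a)).toAffine.Point *
      Nat.card {x : Pool.Agent.TH841.SH.D.Sha (Sh (D ^ 2 * cA a) (D ^ 3 * cB a)) // x + x = 0} :
        ℕ) : ℝ) = ((2 ^ wr a D : ℕ) : ℝ) := by rw [h3]
  push_cast at h4
  exact le_of_eq h4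

theorem sha_zero {a : Fin 3 → ℤ} (hF : Fct a) {D : ℤ} (hD : D ≠ 0) (h0 : wr a D = 0) :
    ∀ x : Pool.Agent.TH841.SH.D.Sha (Sh (D ^ 2 * cA a) (D ^ 3 * cB a)), x + x = 0 → x = 0 := by
  obtain ⟨-, h2, h3⟩ := hF D hD
  rw [cv_tw] at h2 h3
  rw [h0, pow_zero] at h3
  have h4 := Nat.eq_one_of_mul_eq_one_left h3
  intro x hx
  have h5 : Subsingleton {x : Pool.Agent.TH841.SH.D.Sha (Sh (D ^ 2 * cA a) (D ^ 3 * cB a)) //
      x + x = 0} := (Nat.card_eq_one_iff_unique.1 h4).1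
  have h6 := @Subsingleton.elim _ h5 ⟨x, hx⟩ ⟨0, add_zero 0⟩
  exact congrArg Subtype.val h6

theorem t_FLD : S_FLD := by
  intro a hinj hsum hF n d₀ d hd₀ hd F _ _ hG
  have hE : 4 * cA a ^ 3 + 27 * cB a ^ 2 ≠ 0 := disc_ne hsum hinj
  have he := poly_eq hsum
  have hEd : 4 * (d₀ ^ 2 * cA a) ^ 3 + 27 * (d₀ ^ 3 * cB a) ^ 2 ≠ 0 := disc_tw hd₀ hE
  have hp : ∀ T : Finset (Fin n), d₀ * ∏ i ∈ T, d i ≠ 0 := fun T =>
    mul_ne_zero hd₀ (Finset.prod_ne_zero_iff.2 fun i _ => hd i)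
  have e2 : ∀ T : Finset (Fin n), (∏ i ∈ T, d i) ^ 2 * (d₀ ^ 2 * cA a) =
      (d₀ * ∏ i ∈ T, d i) ^ 2 * cA a := fun T => by ring
  have e3 : ∀ T : Finset (Fin n), (∏ i ∈ T, d i) ^ 3 * (d₀ ^ 3 * cB a) =
      (d₀ * ∏ i ∈ T, d i) ^ 3 * cB a := fun T => by ring
  have key : ∀ q, HasDiv (EF (d₀ ^ 2 * cA a) (d₀ ^ 3 * cB a) F) q →
      (2 : ℝ) ^ (rk (EF (d₀ ^ 2 * cA a) (d₀ ^ 3 * cB a) F) + q) ≤
        ∏ T : Finset (Fin n), (2 : ℝ) ^ wr a (d₀ * ∏ i ∈ T, d i) := by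
    intro q hq
    refine one_field hG hd hEd (fun T => (2 : ℝ) ^ wr a (d₀ * ∏ i ∈ T, d i)) ?_ ?_ hq
    · intro T
      rw [e2, e3]
      exact bd_of hF (hp T)
    · intro T
      rw [e2, e3]
      exact Pool.Agent.W307.RG.fin_tw hE he (hp T)
  have hbdd := bdd_of key
  have h1 := key _ (crk_mem hbdd)
  rw [Finset.prod_pow_eq_pow_sum] at h1
  have h2 : rk (EF (d₀ ^ 2 * cA a) (d₀ ^ 3 * cB a) F) + crk (EF (d₀ ^ 2 * cA a) (d₀ ^ 3 * cB a) F) ≤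
      ∑ S : Finset (Fin n), wr a (d₀ * ∏ i ∈ S, d i) :=
    (pow_le_pow_iff_right₀ (by norm_num : (1 : ℝ) < 2)).1 h1
  refine ⟨hbdd, h2, fun h0 => ?_⟩
  have hroot : (d₀ * a 0) ^ 3 + (d₀ ^ 2 * cA a) * (d₀ * a 0) + d₀ ^ 3 * cB a = 0 := by
    have h3 := he (a 0)
    rw [sub_self, zero_mul, zero_mul] at h3
    linear_combination d₀ ^ 3 * h3
  have hrk : rk (EF (d₀ ^ 2 * cA a) (d₀ ^ 3 * cB a) F) = 0 := by
    rw [Finset.sum_eq_zero fun S _ => h0 S] at h2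
    omega
  have hKl : Pool.Agent.Y723.QT.Kl (Pool.Agent.TH841.NF.D.Sha
      (EF (d₀ ^ 2 * cA a) (d₀ ^ 3 * cB a) F)) (n + 0) := by
    obtain ⟨x, hx, hgen⟩ := hG
    refine Pool.Agent.Y723.QT.base_kl (r := x) (d := fun i => (d i : ℚ)) (fun i => ?_)
        (fun i => by exact_mod_cast hd i) hgen fun T => ?_
    · rw [hx i, map_intCast]
    · rw [Pool.Agent.TH841.NF.tw_Sh, e2, e3]
      exact kl_zero (sha_zero hF (hp T) (h0 T))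
  rw [add_zero] at hKl
  refine ⟨?_, (Pool.Agent.Y723.QT.f2_iff (Pool.Agent.Y723.QT.tf_EF (F := F) hEd hroot)).2 ⟨n, hKl⟩,
    hKl⟩
  have hfg := Pool.Agent.Y723.QT.fg_EF (F := F) hEd hroot
  have hz : Module.finrank ℤ (Pool.Agent.Y682.MP (EF (d₀ ^ 2 * cA a) (d₀ ^ 3 * cB a) F)) = 0 := hrk
  exact Module.finite_of_fg_torsion (Pool.Agent.Y682.MP (EF (d₀ ^ 2 * cA a) (d₀ ^ 3 * cB a) F))
    (Module.finrank_eq_zero_iff_isTorsion.1 hz)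

end Pool.Agent.Q154.LD
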